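import Pool.Agent.W23.PP.Defs
import Pool.Agent.W976.KS.BX0K
import Pool.Agent.H442R2.KF.Summ

/-!
PP project (helper23), task BX0P (helper654): the first moment (adapted from
`Pool/Agent/W351/KI/BX0I.lean`).
-/

set_option autoImplicit false

namespace Pool.Agent.W654.PP

open Finset Filter
open Pool.Agent.H442R2
open Pool.Agent.H442R2.KF
open Pool.Agent.W23.DC
open Pool.Agent.W23.SG
open Pool.Agent.W23.PL
open Pool.Agent.W23.KT
open Pool.Agent.W23.PP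
open Pool.Agent.W976.KS.TaskBX0K

/-- duality -/
theorem dual {ι : Type} (w : ℤ → ℝ) (hw : ∀ n, 0 ≤ w n) (N : ℕ) (f : ℕ → ℝ)
    (hS : ∀ n ∈ Icc 1 N, f n ≠ 0 → (1 : ℝ) ≤ 25 * w n) (A : Finset ι) (r : ι → ℤ → ℝ)
    (hs : ∀ a ∈ A, ∀ a' ∈ A, Summable (fun n : ℤ => w n * (r a n * r a' n)))
    (Q : ι → ι → ℝ) (hQ : ∀ a ∈ A, ∀ a' ∈ A, |∑' n : ℤ, w n * (r a n * r a' n)| ≤ Q a a') :
    (∑ a ∈ A, |∑ n ∈ Icc 1 N, f n * r a n|) ^ 2 ≤
      (∑ n ∈ Icc 1 N, f n ^ 2) * (25 * ∑ a ∈ A, ∑ a' ∈ A, Q a a') := by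
  classical
  obtain ⟨Z, hZ⟩ : ∃ Z : ι → ℝ, ∀ a, Z a = ∑ n ∈ Icc 1 N, f n * r a n := ⟨_, fun _ => rfl⟩
  obtain ⟨s, hs1, hsZ⟩ : ∃ s : ι → ℝ, (∀ a, |s a| = 1) ∧ ∀ a, s a * Z a = |Z a| := by
    refine ⟨fun a => if 0 ≤ Z a then 1 else -1, fun a => ?_, fun a => ?_⟩
    · dsimp only
      split_ifs <;> simp
    · dsimp only
      split_ifs with h
      · rw [one_mul, abs_of_nonneg h]
      · rw [abs_of_neg (not_le.1 h)]; ring
  have e1 : ∑ a ∈ A, |∑ n ∈ Icc 1 N, f n * r a n| =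
      ∑ n ∈ Icc 1 N, f n * (if f n = 0 then 0 else ∑ a ∈ A, s a * r a n) := by
    calc ∑ a ∈ A, |∑ n ∈ Icc 1 N, f n * r a n| =
          ∑ a ∈ A, ∑ n ∈ Icc 1 N, s a * (f n * r a n) := by
          refine sum_congr rfl fun a _ => ?_
          rw [← hZ a, ← hsZ a, hZ a, mul_sum]
      _ = ∑ n ∈ Icc 1 N, ∑ a ∈ A, s a * (f n * r a n) := sum_comm
      _ = _ := by
          refine sum_congr rfl fun n _ => ?_
          by_cases h : f n = 0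
          · rw [if_pos h, h]; simp
          · rw [if_neg h, mul_sum]
            refine sum_congr rfl fun a _ => by ring
  rw [e1]
  refine (Finset.sum_mul_sq_le_sq_mul_sq _ _ _).trans ?_
  refine mul_le_mul_of_nonneg_left ?_ (sum_nonneg fun _ _ => sq_nonneg _)
  calc ∑ n ∈ Icc 1 N, (if f n = 0 then 0 else ∑ a ∈ A, s a * r a n) ^ 2 ≤
      ∑ n ∈ Icc 1 N, 25 * (w n * (∑ a ∈ A, s a * r a n) ^ 2) := by
        refine sum_le_sum fun n hn => ?_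
        by_cases h : f n = 0
        · rw [if_pos h]
          have := mul_nonneg (hw n) (sq_nonneg (∑ a ∈ A, s a * r a n))
          linarith
        · rw [if_neg h]
          have := mul_le_mul_of_nonneg_right (hS n hn h) (sq_nonneg (∑ a ∈ A, s a * r a n))
          linarith
    _ = 25 * ∑ n ∈ Icc 1 N, w n * (∑ a ∈ A, s a * r a n) ^ 2 := by rw [mul_sum]
    _ ≤ 25 * ∑' n : ℤ, w n * (∑ a ∈ A, s a * r a n) ^ 2 := by
        have := (Pool.Agent.W74.SG.DUg.summ (Y := s) hs).sum_le_tsum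
          ((Icc 1 N).map Nat.castEmbedding) (fun n _ => mul_nonneg (hw n) (sq_nonneg _))
        rw [Finset.sum_map] at this
        exact mul_le_mul_of_nonneg_left this (by norm_num)
    _ ≤ 25 * ∑ a ∈ A, ∑ a' ∈ A, Q a a' := by
        refine mul_le_mul_of_nonneg_left ?_ (by norm_num)
        rw [Pool.Agent.W74.SG.DUg.tsum_eq hs]
        refine sum_le_sum fun a ha => sum_le_sum fun a' ha' => ?_
        calc s a * s a' * ∑' n : ℤ, w n * (r a n * r a' n) ≤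
              |s a * s a' * ∑' n : ℤ, w n * (r a n * r a' n)| := le_abs_self _
          _ = |∑' n : ℤ, w n * (r a n * r a' n)| := by
              rw [abs_mul, abs_mul, hs1, hs1, one_mul, one_mul]
          _ ≤ Q a a' := hQ a ha a' ha'

theorem sy_one {k M N : ℕ} (hN : 1 ≤ N) : Sy k M N (fun _ => 1) where
  per m n := by simp
  gr n := by
    have h1 : (1 : ℝ) ≤ (N : ℝ) ^ M := one_le_pow₀ (by exact_mod_cast hN)
    have h2 : (1 : ℝ) ≤ (1 + |(n : ℝ)|) ^ k := one_le_pow₀ (by linarith [abs_nonneg (n : ℝ)])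
    have h3 : |((1 : ℤ) : ℝ)| = 1 := by simp
    rw [h3]
    nlinarith
  ze := ⟨∅, by simp, fun n h => absurd h one_ne_zero⟩
  lift p j hp hj := ⟨∅, by simp, fun n h => by
    exfalso
    have h1 : p ^ (k * (j - 1) + 1) ∣ 1 := by exact_mod_cast h
    have h2 : p ∣ 1 := (dvd_pow_self p (Nat.succ_ne_zero _)).trans h1
    exact hp.one_lt.ne' (Nat.dvd_one.1 h2)⟩

theorem cp_one {M N : ℕ} (hN : 1 ≤ N) (φ : ℤ → ℤ) : Cp M N φ (fun _ => 1) := by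
  refine ⟨1, one_ne_zero, ?_, fun n l _ _ h => h⟩
  have h1 : (1 : ℝ) ≤ (N : ℝ) ^ M := one_le_pow₀ (by exact_mod_cast hN)
  simpa using h1

theorem hatP_th1 {D : ℕ} (hD : 1 ≤ D) (φ : ℤ → ℤ) : hatP φ th1 D = 1 := by
  unfold hatP
  rw [Finset.sum_eq_single 1]
  · simp [th1, rh, nr]
  · intro b _ hb
    simp [th1, hb]
  · intro h
    exact absurd (mem_Icc.2 ⟨le_rfl, hD⟩) h

theorem hat_gm (hRTP : St_RTP) {k M N : ℕ} {φ : ℤ → ℤ} (hφ : Sy k M N φ) {P : Finset ℕ} {D : ℕ}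
    {U : ℝ} {th : ℕ → ℝ} (hth : DW P D U th) :
    ∑ e ∈ Icc 1 D, th e * gm (rh φ) e = hatP φ th D := by
  unfold hatP
  refine sum_congr rfl fun e _ => ?_
  by_cases h : th e = 0
  · rw [h, zero_mul, zero_mul]
  · rw [((hRTP.2.2 k M N φ hφ).2 e (hth.supp e h).1).1]

theorem rh_range (hRTP : St_RTP) {k M N : ℕ} {φ : ℤ → ℤ} (hφ : Sy k M N φ) {p : ℕ}
    (hp : p.Prime) : 0 ≤ rh φ p ∧ rh φ p ≤ 1 ∧ rh φ p ≤ k / p := by
  have hp0 : (0 : ℝ) < p := by exact_mod_cast hp.pos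
  refine ⟨by unfold rh; positivity, ?_, ?_⟩
  · unfold rh
    rw [div_le_one hp0]
    have h1 : nr φ p ≤ p := by
      unfold nr
      refine (card_filter_le _ _).trans ?_
      rw [card_range]
    exact_mod_cast h1
  · unfold rh
    have h1 := (hRTP.2.2 k M N φ hφ).1 p hp
    gcongr

theorem VP_range (hRTP : St_RTP) {k M N : ℕ} {φ : ℤ → ℤ} (hφ : Sy k M N φ) {P : Finset ℕ}
    (hP : ∀ p ∈ P, p.Prime) : 0 ≤ VP φ P ∧ VP φ P ≤ 1 := by
  have h : ∀ p ∈ P, 0 ≤ 1 - rh φ p ∧ 1 - rh φ p ≤ 1 := by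
    intro p hp
    obtain ⟨h1, h2, _⟩ := rh_range hRTP hφ (hP p hp)
    constructor <;> linarith
  exact ⟨Finset.prod_nonneg fun p hp => (h p hp).1,
    Finset.prod_le_one (fun p hp => (h p hp).1) fun p hp => (h p hp).2⟩

/-- elementary estimate of the error term -/
theorem err3 {C ρ L x y : ℝ} {B k e : ℕ} (hC : 0 < C) (hρ : 0 < ρ) (hL : 2 ≤ L)
    (hx : L ^ (3 * k + 7) ≤ x) (hK : 16 * C / ρ ≤ L) (hB : e + 4 * k + 10 ≤ B) (hy : y = L ^ B) :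
    8 * (C * L ^ 3 * (x * L ^ e / y + 1)) ≤ ρ * (1 / L ^ (k + 1)) ^ 3 * x := by
  have hL0 : 0 < L := by linarith
  have hL1 : 1 ≤ L := by linarith
  have hx0 : 0 < x := lt_of_lt_of_le (by positivity) hx
  have h2 : x * L ^ e / y ≤ x / L ^ (3 * k + 7) := by
    rw [hy, div_le_div_iff₀ (by positivity) (by positivity)]
    have : L ^ (e + (3 * k + 7)) ≤ L ^ B := pow_le_pow_right₀ hL1 (by omega)
    calc x * L ^ e * L ^ (3 * k + 7) = x * L ^ (e + (3 * k + 7)) := by rw [pow_add]; ring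
      _ ≤ x * L ^ B := mul_le_mul_of_nonneg_left this hx0.le
  have h3 : 1 ≤ x / L ^ (3 * k + 7) := by
    rw [le_div_iff₀ (by positivity), one_mul]
    exact hx
  have h4 : 16 * C ≤ ρ * L := by
    rw [div_le_iff₀ hρ] at hK
    linarith
  have e1 : (1 / L ^ (k + 1)) ^ 3 = L ^ 4 / L ^ (3 * k + 7) := by
    rw [div_pow, one_pow, ← pow_mul, div_eq_div_iff (by positivity) (by positivity), one_mul,
      ← pow_add]
    congr 1
    ring
  have hz : 0 < x / L ^ (3 * k + 7) := by positivity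
  calc 8 * (C * L ^ 3 * (x * L ^ e / y + 1)) ≤ 8 * (C * L ^ 3 * (2 * (x / L ^ (3 * k + 7)))) := by
        apply mul_le_mul_of_nonneg_left _ (by norm_num)
        apply mul_le_mul_of_nonneg_left _ (by positivity)
        linarith
    _ = (16 * C) * (L ^ 3 * (x / L ^ (3 * k + 7))) := by ring
    _ ≤ (ρ * L) * (L ^ 3 * (x / L ^ (3 * k + 7))) :=
        mul_le_mul_of_nonneg_right h4 (by positivity)
    _ = ρ * (1 / L ^ (k + 1)) ^ 3 * x := by rw [e1]; ring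

theorem rho_bound {A₀ ε₁ : ℝ} (hε₁ : 0 < ε₁) (hε1 : ε₁ ≤ 1) :
    1000000000 * Real.exp (-((A₀ + 30) / ε₁)) ≤ Real.exp (-(A₀ / ε₁)) := by
  have h1 : Real.exp (-((A₀ + 30) / ε₁)) = Real.exp (-(A₀ / ε₁)) * Real.exp (-(30 / ε₁)) := by
    rw [← Real.exp_add]
    congr 1
    ring
  have h2 : Real.exp (-(30 / ε₁)) ≤ Real.exp (-30) := by
    apply Real.exp_le_exp.2
    have : 30 ≤ 30 / ε₁ := by
      rw [le_div_iff₀ hε₁]
      linarith
    linarith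
  have h3 : 1000000000 * Real.exp (-30) ≤ 1 := by
    have h4 : (1000000000 : ℝ) ≤ Real.exp 30 := by
      have h5 : Real.exp 30 = Real.exp 1 ^ 30 := by
        rw [← Real.exp_nat_mul]; norm_num
      rw [h5]
      calc (1000000000 : ℝ) ≤ 2.7 ^ 30 := by norm_num
        _ ≤ Real.exp 1 ^ 30 := pow_le_pow_left₀ (by norm_num)
          (by linarith [Real.exp_one_gt_d9]) 30
    have h6 : Real.exp 30 * Real.exp (-30) = 1 := by rw [← Real.exp_add]; simp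
    have h7 := Real.exp_pos (-30)
    nlinarith
  rw [h1]
  have h8 := Real.exp_pos (-(A₀ / ε₁))
  calc 1000000000 * (Real.exp (-(A₀ / ε₁)) * Real.exp (-(30 / ε₁)))
      = Real.exp (-(A₀ / ε₁)) * (1000000000 * Real.exp (-(30 / ε₁))) := by ring
    _ ≤ Real.exp (-(A₀ / ε₁)) * 1 := by
        apply mul_le_mul_of_nonneg_left _ h8.le
        linarith
    _ = _ := mul_one _

/-- large `N` -/
theorem large (k : ℕ) (K : ℝ) : ∀ᶠ N : ℕ in atTop, (2 : ℝ) ≤ (N : ℝ) ^ (1 / 80 : ℝ) ∧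
    2 ≤ Real.log N ∧ Real.log N ^ (3 * k + 7) ≤ N ∧ K ≤ Real.log N := by
  have hcast := tendsto_natCast_atTop_atTop (R := ℝ)
  have t1 := ((tendsto_rpow_atTop (show (0 : ℝ) < 1 / 80 by norm_num)).comp
    hcast).eventually_ge_atTop 2
  have tl := Real.tendsto_log_atTop.comp hcast
  have t2 := tl.eventually_ge_atTop 2
  have t3 : ∀ᶠ x : ℝ in atTop, Real.log x ^ (3 * k + 7) ≤ x := by
    have h := (Real.isLittleO_pow_log_id_atTop (n := 3 * k + 7)).bound (c := 1) one_pos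
    filter_upwards [h, eventually_ge_atTop 1] with x hx hx1
    rw [one_mul, Real.norm_eq_abs, Real.norm_eq_abs] at hx
    have h2 : |id x| = x := abs_of_nonneg (by simp; linarith)
    rw [h2] at hx
    exact (le_abs_self _).trans hx
  have t3' := hcast.eventually t3
  have t4 := tl.eventually_ge_atTop K
  filter_upwards [t1, t2, t3', t4] with N h1 h2 h3 h4
  exact ⟨h1, h2, h3, h4⟩

theorem fin_arith {F Z W Λ ρ ex : ℝ} (hF : F ≤ 75 * W) (h0 : 0 ≤ W) (hΛ : 0 ≤ Λ) (hρ : 0 ≤ ρ)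
    (hex : 1000000000 * ρ ≤ ex) (hZ : Z ≤ F * (25 * (W * (7 * Λ + 15 * ρ * Λ ^ 2)))) :
    Z ≤ W ^ 2 * (1000000000 * Λ + ex * Λ ^ 2) := by
  have h1 : 0 ≤ Λ ^ 2 := sq_nonneg Λ
  have h2 : 0 ≤ 7 * Λ + 15 * ρ * Λ ^ 2 := by positivity
  have hpos : 0 ≤ 25 * (W * (7 * Λ + 15 * ρ * Λ ^ 2)) :=
    mul_nonneg (by norm_num) (mul_nonneg h0 h2)
  refine hZ.trans ((mul_le_mul_of_nonneg_right hF hpos).trans ?_)
  have e : (75 * W) * (25 * (W * (7 * Λ + 15 * ρ * Λ ^ 2))) =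
      W ^ 2 * (13125 * Λ + 28125 * ρ * Λ ^ 2) := by ring
  rw [e]
  refine mul_le_mul_of_nonneg_left ?_ (sq_nonneg W)
  have h3 : 28125 * ρ * Λ ^ 2 ≤ ex * Λ ^ 2 := mul_le_mul_of_nonneg_right (by linarith) h1
  linarith

theorem sumQ {ι : Type} [DecidableEq ι] (A : Finset ι) (V : ι → ℝ) (c d : ℝ) :
    ∑ i ∈ A, ∑ j ∈ A, ((if i = j then c * V i else 0) + d * (V i * V j)) =
      c * (∑ i ∈ A, V i) + d * (∑ i ∈ A, V i) ^ 2 := by
  have e1 : ∀ i ∈ A, ∑ j ∈ A, ((if i = j then c * V i else 0) + d * (V i * V j)) =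
      c * V i + d * (V i * ∑ j ∈ A, V j) := by
    intro i hi
    rw [sum_add_distrib, sum_ite_eq, if_pos hi, ← mul_sum, ← mul_sum]
  rw [sum_congr rfl e1, sum_add_distrib, ← mul_sum, ← mul_sum, ← sum_mul]
  ring

theorem Wt_ge {N p : ℕ} (hN : 1 ≤ N) (hp : p ≤ N) : (1 : ℝ) ≤ 25 * Wt N (p : ℤ) := by
  have hN0 : (0 : ℝ) < N := by exact_mod_cast hN
  have h0 : 0 ≤ ((p : ℤ) : ℝ) / N := by positivity
  have h1 : ((p : ℤ) : ℝ) / N ≤ 1 := by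
    rw [div_le_one hN0]
    push_cast
    exact_mod_cast hp
  have h2 : (((p : ℤ) : ℝ) / N) ^ 2 ≤ 1 := pow_le_one₀ h0 h1
  have h3 : Real.exp (-Real.pi) ≤ Real.exp (-Real.pi * (((p : ℤ) : ℝ) / N) ^ 2) := by
    apply Real.exp_le_exp.2
    nlinarith [Real.pi_pos]
  unfold Wt
  linarith [BX.TaskBK.exp_neg_pi]

theorem diag_arith {T W V ρ E S : ℝ} (hT : |T| ≤ 2 * W) (hW : 0 ≤ W) (hV : 0 ≤ V) (hV1 : V ≤ 1)
    (hρ : 0 ≤ ρ) (hρ1 : ρ ≤ 1) (hE : 8 * E ≤ ρ * (V * V) * W) (hS : S ≤ 3 * (|T| * V) + 2 * E) :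
    S ≤ 7 * W * V := by
  have h2 : |T| * V ≤ 2 * W * V := mul_le_mul_of_nonneg_right hT hV
  have h5 : V * V ≤ V * 1 := mul_le_mul_of_nonneg_left hV1 hV
  have h6 : ρ * (V * V) ≤ 1 * (V * 1) := mul_le_mul hρ1 h5 (mul_self_nonneg V) zero_le_one
  have h7 : ρ * (V * V) * W ≤ 1 * (V * 1) * W := mul_le_mul_of_nonneg_right h6 hW
  have h8 : 0 ≤ V * W := mul_nonneg hV hW
  linarith

theorem off_arith {T W V V' ρ E S : ℝ} (hT : |T| ≤ 2 * W) (hV : 0 ≤ V) (hV' : 0 ≤ V')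
    (hρ : 0 ≤ ρ) (hE : 8 * E ≤ ρ * (V * V') * W)
    (hS : S ≤ 7 * (|T| * (ρ * (V * V'))) + 8 * E) : S ≤ 15 * (ρ * W) * (V * V') := by
  have h1 : 0 ≤ ρ * (V * V') := mul_nonneg hρ (mul_nonneg hV hV')
  have h2 : |T| * (ρ * (V * V')) ≤ 2 * W * (ρ * (V * V')) := mul_le_mul_of_nonneg_right hT h1
  have e : 7 * (2 * W * (ρ * (V * V'))) + ρ * (V * V') * W = 15 * (ρ * W) * (V * V') := by ring
  linarith

theorem T_arith {H V0 ρ N : ℝ} (hN : 0 ≤ N) (hV : 0 ≤ V0) (hρ1 : ρ ≤ 1)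
    (hH : |H - V0| ≤ ρ * V0) : |N * H| ≤ 2 * (V0 * N) := by
  rw [abs_mul, abs_of_nonneg hN]
  have h3 : ρ * V0 ≤ 1 * V0 := mul_le_mul_of_nonneg_right hρ1 hV
  have h2 := abs_le.1 hH
  have h1 : |H| ≤ 2 * V0 := by
    rw [abs_le]
    constructor <;> linarith [h2.1, h2.2]
  calc N * |H| ≤ N * (2 * V0) := mul_le_mul_of_nonneg_left h1 hN
    _ = _ := by ring

theorem err_mono {E ρ b V0 v v' N : ℝ} (hb : 0 ≤ b) (hρ : 0 ≤ ρ) (hN : 0 ≤ N)
    (hE : 8 * E ≤ ρ * b ^ 3 * N) (h0 : b ≤ V0) (hv : b ≤ v) (hv' : b ≤ v') :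
    8 * E ≤ ρ * (v * v') * (V0 * N) := by
  refine hE.trans ?_
  have h1 : b * b ≤ v * v' := mul_le_mul hv hv' hb (hb.trans hv)
  have h2 : (b * b) * b ≤ (v * v') * V0 :=
    mul_le_mul h1 h0 hb ((mul_nonneg hb hb).trans h1)
  calc ρ * b ^ 3 * N = ρ * ((b * b) * b) * N := by ring
    _ ≤ ρ * ((v * v') * V0) * N :=
      mul_le_mul_of_nonneg_right (mul_le_mul_of_nonneg_left h2 hρ) hN
    _ = _ := by ring

theorem E_arith {E ρ b V0 N : ℝ} (hb : 0 ≤ b) (hρ : 0 ≤ ρ) (hρ1 : ρ ≤ 1) (hN : 0 ≤ N)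
    (h0 : b ≤ V0) (h1 : V0 ≤ 1) (hE : 8 * E ≤ ρ * b ^ 3 * N) (hE0 : 0 ≤ E) : E ≤ V0 * N := by
  have hb1 : b ≤ 1 := h0.trans h1
  have h2 : b * b ≤ 1 := mul_le_one₀ hb1 hb hb1
  have h3 : (b * b) * b ≤ 1 * V0 := mul_le_mul h2 h0 hb zero_le_one
  have h4 : ρ * ((b * b) * b) ≤ 1 * (1 * V0) :=
    mul_le_mul hρ1 h3 (mul_nonneg (mul_nonneg hb hb) hb) zero_le_one
  have h5 : ρ * b ^ 3 * N ≤ V0 * N := by
    refine mul_le_mul_of_nonneg_right ?_ hN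
    calc ρ * b ^ 3 = ρ * ((b * b) * b) := by ring
      _ ≤ 1 * (1 * V0) := h4
      _ = V0 := by ring
  linarith

/-- **BX0P** -/
theorem BX0P (hRTP : St_RTP) (hFLWG : St_FLWG) (hCORP : St_CORP) (hVLBP : St_VLBP)
    (_hGS : BX.St_GS) : St_BX0P := by
  intro k M hk hM A₀ hA₀
  obtain ⟨εs, hεs, hflw⟩ := hFLWG k hk (1 / 40) (A₀ + 30) (by norm_num) (by linarith)
  obtain ⟨C, e₀, Nc, hC, hcor⟩ := hCORP k M hk
  obtain ⟨hv1, hv2⟩ := hVLBP k hk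
  refine ⟨e₀ + 4 * k + 10, min εs 1, lt_min hεs one_pos, ?_⟩
  intro ε₁ hε₁ hε₁s B hB
  have hε1 : ε₁ ≤ 1 := hε₁s.trans (min_le_right _ _)
  obtain ⟨Nf, hNf⟩ := hflw ε₁ hε₁ (hε₁s.trans (min_le_left _ _))
  obtain ⟨_, Nv, _, hNv⟩ := hv1 M B (by omega) ε₁ hε₁ hε1
  obtain ⟨_, _, hv2'⟩ := hv2 ε₁ hε₁ hε1
  obtain ⟨Nv2, hNv2⟩ := hv2' M ε₁ hε₁ le_rfl
  set ρ : ℝ := Real.exp (-((A₀ + 30) / ε₁)) with hρ
  have hρ0 : 0 < ρ := Real.exp_pos _
  have hρ1 : ρ ≤ 1 := by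
    rw [hρ]
    apply Real.exp_le_one_iff.2
    have : 0 ≤ (A₀ + 30) / ε₁ := by positivity
    linarith
  have hρA : 1000000000 * ρ ≤ Real.exp (-(A₀ / ε₁)) := rho_bound hε₁ hε1
  obtain ⟨Ne, hNe⟩ := eventually_atTop.1 (large k (16 * C / ρ))
  refine ⟨1000000000, Nc + Nf + Nv + Nv2 + Ne + 2, by norm_num, ?_⟩
  intro N hN φ0 hφ0 hV00 ι 𝒜 φ hφ hdis f hf hf0
  obtain ⟨hg2, hL2, hL6, hLK⟩ := hNe N (by omega)
  have hN2 : 2 ≤ N := by omega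
  have hNr : (2 : ℝ) ≤ N := by exact_mod_cast hN2
  have hN0 : (0 : ℝ) < N := by linarith
  have hN1 : (1 : ℝ) ≤ N := by linarith
  have hN1' : 1 ≤ N := by omega
  set L := Real.log N with hLdef
  have hL0 : 0 < L := by linarith
  have hL1 : 1 ≤ L := by linarith
  set y : ℝ := L ^ B with hy
  have hLy : L ≤ y := by
    calc L = L ^ 1 := (pow_one _).symm
      _ ≤ L ^ B := pow_le_pow_right₀ hL1 (by omega)
  have hy2 : 2 ≤ y := hL2.trans hLy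
  have hP0 : ∀ p ∈ P0 N ε₁, p.Prime := by
    intro p hp
    unfold P0 at hp
    rw [mem_filter] at hp
    exact hp.2.1
  have hP1 : ∀ p ∈ P1 N B ε₁, p.Prime ∧ y ≤ (p : ℝ) := by
    intro p hp
    unfold P1 at hp
    rw [mem_filter] at hp
    exact ⟨hp.2.1, hp.2.2.1⟩
  have hP10 : P1 N B ε₁ ⊆ P0 N ε₁ := by
    intro p hp
    unfold P1 at hp
    rw [mem_filter] at hp
    unfold P0
    rw [mem_filter]
    exact ⟨hp.1, hp.2.1, hp.2.2.2⟩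
  set b : ℝ := 1 / L ^ (k + 1) with hb
  have hb0 : 0 < b := by positivity
  set V0 := VP φ0 (P0 N ε₁) with hV0def
  have hV0b : b ≤ V0 := (hNv2 N (by omega) φ0 hφ0).2.2.2 hV00
  have hV01 : V0 ≤ 1 := (VP_range hRTP hφ0 hP0).2
  set V : ι → ℝ := fun i => VP (φ i) (P1 N B ε₁) with hVdef
  have hVb : ∀ i ∈ 𝒜, b ≤ V i := by
    intro i hi
    obtain ⟨h1, _, h3, _⟩ := hNv N (by omega) (φ i) (hφ i hi).1
    exact h3.trans h1
  have hV1 : ∀ i ∈ 𝒜, V i ≤ 1 := fun i hi => (hNv N (by omega) (φ i) (hφ i hi).1).2.2.2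
  have hVn : ∀ i ∈ 𝒜, 0 ≤ V i := fun i hi => hb0.le.trans (hVb i hi)
  -- the sieves
  obtain ⟨D, hD⟩ : ∃ D : ℕ, D = ⌊(N : ℝ) ^ (1 / 40 : ℝ)⌋₊ := ⟨_, rfl⟩
  obtain ⟨t0, _, ht0, _, hs0, hm0⟩ := hNf N (by omega) D hD (P0 N ε₁) (Subset.refl _)
  obtain ⟨th, dl, hth, hdl, hsand, hmain⟩ := hNf N (by omega) D hD (P1 N B ε₁) hP10
  have hgg : (N : ℝ) ^ (1 / 40 : ℝ) = (N : ℝ) ^ (1 / 80 : ℝ) * (N : ℝ) ^ (1 / 80 : ℝ) := by
    rw [← Real.rpow_add hN0]; norm_num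
  have hD1 : (D : ℝ) ≤ (N : ℝ) ^ (1 / 40 : ℝ) := by
    rw [hD]; exact Nat.floor_le (Real.rpow_nonneg hN0.le _)
  have hDg : (N : ℝ) ^ (1 / 80 : ℝ) ≤ D := by
    have hz2 : (N : ℝ) ^ (1 / 40 : ℝ) < D + 1 := by
      rw [hD]; exact Nat.lt_floor_add_one _
    rw [hgg] at hz2
    nlinarith
  have hD2 : 2 ≤ D := by
    have : (2 : ℝ) ≤ D := hg2.trans hDg
    exact_mod_cast this
  have hD1' : 1 ≤ D := by omega
  have hD20 : (D : ℝ) ≤ (N : ℝ) ^ (1 / 20 : ℝ) :=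
    hD1.trans (Real.rpow_le_rpow_of_exponent_le hN1 (by norm_num))
  -- main terms
  have hH0 : |hatP φ0 t0 D - V0| ≤ ρ * V0 := by
    have h := (hm0 (rh φ0) (fun p hp => rh_range hRTP hφ0 (hP0 p hp))).1
    rw [hat_gm hRTP hφ0 ht0] at h
    exact h
  have hHi : ∀ i ∈ 𝒜, |hatP (φ i) th D - V i| ≤ ρ * V i ∧ |hatP (φ i) dl D| ≤ ρ * V i := by
    intro i hi
    have h := hmain (rh (φ i)) (fun p hp => rh_range hRTP (hφ i hi).1 (hP1 p hp).1)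
    rw [hat_gm hRTP (hφ i hi).1 hth, hat_gm hRTP (hφ i hi).1 hdl] at h
    exact h
  -- the weights
  have hEv0 : ∀ m : ℤ, 0 ≤ Ev t0 D m := fun m => (xx_nonneg _ _).trans (hs0 m).1
  have hWs : Summable (fun n : ℤ => Wt N n) := TaskS.summable_Wt N hN1'
  have hW0 : ∀ n : ℤ, 0 ≤ Wt N n := fun n => (Real.exp_pos _).le
  set w : ℤ → ℝ := fun n => Wt N n * Ev t0 D (φ0 n) with hwdef
  have hw : Summable w := summ hWs hW0 (Bd_Ev t0 D φ0)
  have hw0 : ∀ n, 0 ≤ w n := fun n => mul_nonneg (hW0 n) (hEv0 _)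
  set T : ℝ := N * hatP φ0 t0 D with hT
  set E : ℝ := C * L ^ 3 * (N * L ^ e₀ / y + 1) with hE
  have hE0 : 0 ≤ E := by positivity
  have hErr : 8 * E ≤ ρ * b ^ 3 * N := by
    rw [hE]
    exact err3 hC hρ0 hL2 hL6 hLK hB hy
  have hErr2 : ∀ v v' : ℝ, b ≤ v → b ≤ v' → 8 * E ≤ ρ * (v * v') * (V0 * N) :=
    fun v v' hv hv' => err_mono hb0.le hρ0.le hN0.le hErr hV0b hv hv'
  -- correlations
  have sy1 : Sy k M N (fun _ => 1) := sy_one hN1'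
  have dwe : DW ∅ D L th1 := dw_th1 hD1' hL1
  have cor : ∀ i ∈ 𝒜, ∀ j ∈ 𝒜, i ≠ j → ∀ u u' : ℕ → ℝ, DW (P1 N B ε₁) D L u →
      DW (P1 N B ε₁) D L u' →
      |∑' n : ℤ, w n * (Ev u D (φ i n) * Ev u' D (φ j n)) -
        T * (hatP (φ i) u D * hatP (φ j) u' D)| ≤ E := by
    intro i hi j hj hne u u' hu hu'
    have h := hcor N (by omega) D hD1' hD20 φ0 (φ i) (φ j) hφ0 (hφ i hi).1 (hφ j hj).1
      (hφ i hi).2 (hφ j hj).2 (hdis i hi j hj hne) (P0 N ε₁) (P1 N B ε₁) (P1 N B ε₁) y hy2 hP0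
      hP1 hP1 L t0 u u' hL1 ht0 hu hu'
    have e1 : ∀ n : ℤ, Wt N n * (Ev t0 D (φ0 n) * (Ev u D (φ i n) * Ev u' D (φ j n))) =
        w n * (Ev u D (φ i n) * Ev u' D (φ j n)) := fun n => by rw [hwdef]; ring
    rw [tsum_congr e1, ← mul_assoc (N : ℝ)] at h
    exact h
  have cor1 : ∀ i ∈ 𝒜, ∀ u : ℕ → ℝ, DW (P1 N B ε₁) D L u →
      |∑' n : ℤ, w n * Ev u D (φ i n) - T * hatP (φ i) u D| ≤ E := by
    intro i hi u hu
    have h := hcor N (by omega) D hD1' hD20 φ0 (φ i) (fun _ => 1) hφ0 (hφ i hi).1 sy1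
      (hφ i hi).2 (cp_one hN1' _) (cp_one hN1' _) (P0 N ε₁) (P1 N B ε₁) ∅ y hy2 hP0
      hP1 (by simp) L t0 u th1 hL1 ht0 hu dwe
    have e1 : ∀ n : ℤ, Wt N n * (Ev t0 D (φ0 n) * (Ev u D (φ i n) * Ev th1 D 1)) =
        w n * Ev u D (φ i n) := fun n => by rw [Ev_th1 hD1', hwdef]; ring
    rw [tsum_congr e1, hatP_th1 hD1', mul_one, ← mul_assoc (N : ℝ)] at h
    exact h
  have cor00 : |∑' n : ℤ, w n * 1 - T| ≤ E := by
    have h := hcor N (by omega) D hD1' hD20 φ0 (fun _ => 1) (fun _ => 1) hφ0 sy1 sy1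
      (cp_one hN1' _) (cp_one hN1' _) (cp_one hN1' _) (P0 N ε₁) ∅ ∅ y hy2 hP0
      (by simp) (by simp) L t0 th1 th1 hL1 ht0 dwe dwe
    have e1 : ∀ n : ℤ, Wt N n * (Ev t0 D (φ0 n) * (Ev th1 D 1 * Ev th1 D 1)) =
        w n * 1 := fun n => by rw [Ev_th1 hD1', hwdef]; ring
    rw [tsum_congr e1, hatP_th1 hD1', mul_one, mul_one] at h
    exact h
  -- size of T
  have hV00' : 0 ≤ V0 := hb0.le.trans hV0b
  have hTabs : |T| ≤ 2 * (V0 * N) := T_arith hN0.le hV00' hρ1 hH0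
  -- the functions
  set x : ι → ℤ → ℝ := fun i n => xx (P1 N B ε₁) (φ i n) with hx
  set r : ι → ℤ → ℝ := fun i n => x i n - V i with hr
  have hVN : 0 ≤ V0 * N := mul_nonneg (hb0.le.trans hV0b) hN0.le
  have hdiag : ∀ i ∈ 𝒜, |∑' n : ℤ, w n * (r i n * r i n)| ≤ 7 * (V0 * N) * V i := by
    intro i hi
    have h := core_diag hw hw0 (x := x i) (Θ := fun n => Ev th D (φ i n))
      (T := T) (M := hatP (φ i) th D) (V := V i) (ρ := ρ) (E := E) (fun n => xx_nonneg _ _)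
      (fun n => xx_le_one _ _) (fun n => (hsand _).1) (Bd_Ev th D _)
      (cor1 i hi th hth) cor00 (hHi i hi).1 hρ1 (hVn i hi) (hV1 i hi)
    have hnn : 0 ≤ ∑' n : ℤ, w n * (r i n * r i n) :=
      tsum_nonneg fun n => mul_nonneg (hw0 n) (mul_self_nonneg _)
    rw [abs_of_nonneg hnn]
    exact diag_arith hTabs hVN (hVn i hi) (hV1 i hi) hρ0.le hρ1
      (hErr2 (V i) (V i) (hVb i hi) (hVb i hi)) h
  have hoff : ∀ i ∈ 𝒜, ∀ j ∈ 𝒜, i ≠ j →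
      |∑' n : ℤ, w n * (r i n * r j n)| ≤ 15 * (ρ * (V0 * N)) * (V i * V j) := by
    intro i hi j hj hne
    have h := core_off hw hw0 (x := x i) (x' := x j)
      (Θ := fun n => Ev th D (φ i n)) (Θ' := fun n => Ev th D (φ j n))
      (Δ := fun n => Ev dl D (φ i n)) (Δ' := fun n => Ev dl D (φ j n))
      (T := T) (M := hatP (φ i) th D) (M' := hatP (φ j) th D) (md := hatP (φ i) dl D)
      (md' := hatP (φ j) dl D) (V := V i) (V' := V j) (ρ := ρ) (E := E)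
      (fun n => xx_nonneg _ _) (fun n => xx_le_one _ _) (fun n => (hsand _).1)
      (fun n => (hsand _).2)
      (fun n => xx_nonneg _ _) (fun n => xx_le_one _ _) (fun n => (hsand _).1)
      (fun n => (hsand _).2) (Bd_Ev _ D _) (Bd_Ev _ D _) (Bd_Ev _ D _) (Bd_Ev _ D _)
      (cor i hi j hj hne _ _ hth hth) (cor i hi j hj hne _ _ hdl hth)
      (cor i hi j hj hne _ _ hth hdl)
      (cor1 i hi _ hth) (cor1 j hj _ hth)
      (cor1 i hi _ hdl) (cor1 j hj _ hdl)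
      cor00 (hHi i hi).1 (hHi i hi).2 (hHi j hj).1 (hHi j hj).2 hρ0.le hρ1 (hVn i hi) (hV1 i hi)
      (hVn j hj) (hV1 j hj)
    exact off_arith hTabs (hVn i hi) (hVn j hj) hρ0.le
      (hErr2 (V i) (V j) (hVb i hi) (hVb j hj)) h
  -- the weights at the support of `f`
  have hw25 : ∀ n ∈ Icc 1 N, f n ≠ 0 → (1 : ℝ) ≤ 25 * w (n : ℤ) := by
    intro p hp hfp
    rw [mem_Icc] at hp
    have hev : 1 ≤ Ev t0 D (φ0 p) := by
      rw [← hf0 p hfp]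
      exact (hs0 _).1
    have h4 : (1 : ℝ) ≤ 25 * Wt N (p : ℤ) := Wt_ge hN1' hp.2
    show (1 : ℝ) ≤ 25 * (Wt N (p : ℤ) * Ev t0 D (φ0 p))
    calc (1 : ℝ) ≤ 25 * Wt N (p : ℤ) := h4
      _ = 25 * (Wt N (p : ℤ) * 1) := by rw [mul_one]
      _ ≤ 25 * (Wt N (p : ℤ) * Ev t0 D (φ0 p)) :=
        mul_le_mul_of_nonneg_left (mul_le_mul_of_nonneg_left hev (hW0 _)) (by norm_num)
  -- the sum of `f ^ 2`
  have hwsum : ∑ n ∈ Icc 1 N, w (n : ℤ) ≤ 3 * (V0 * N) := by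
    have h1 := hw.sum_le_tsum ((Icc 1 N).map Nat.castEmbedding) (fun n _ => hw0 n)
    rw [Finset.sum_map] at h1
    have h2 := (abs_le.1 cor00).2
    simp only [mul_one] at h2
    have h3 : T ≤ 2 * (V0 * N) := (le_abs_self _).trans hTabs
    have h4 : E ≤ V0 * N := E_arith hb0.le hρ0.le hρ1 hN0.le hV0b hV01 hErr hE0
    have h5 : ∑ n ∈ Icc 1 N, w (n : ℤ) ≤ ∑' n : ℤ, w n := h1
    linarith
  have hFs : ∑ n ∈ Icc 1 N, f n ^ 2 ≤ 75 * (V0 * N) := by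
    calc ∑ n ∈ Icc 1 N, f n ^ 2 ≤ ∑ n ∈ Icc 1 N, 25 * w (n : ℤ) := by
          refine sum_le_sum fun n hn => ?_
          by_cases h : f n = 0
          · rw [h]
            have := hw0 (n : ℤ)
            norm_num
            exact this
          · refine le_trans ?_ (hw25 n hn h)
            rw [← sq_abs]
            exact pow_le_one₀ (abs_nonneg _) (hf n)
      _ = 25 * ∑ n ∈ Icc 1 N, w (n : ℤ) := by rw [mul_sum]
      _ ≤ 25 * (3 * (V0 * N)) := mul_le_mul_of_nonneg_left hwsum (by norm_num)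
      _ = 75 * (V0 * N) := by ring
  -- conclusion
  have bx : ∀ i, Bd (x i) := fun i =>
    ⟨1, fun n => by rw [abs_of_nonneg (xx_nonneg _ _)]; exact xx_le_one _ _⟩
  classical
  have hdu := dual w hw0 N f hw25 𝒜 r
    (fun i _ j _ => summ hw hw0 (((bx i).sub (Bd.const (V i))).mul ((bx j).sub (Bd.const (V j)))))
    (fun i j => (if i = j then 7 * (V0 * N) * V i else 0) + 15 * (ρ * (V0 * N)) * (V i * V j))
    (by
      intro i hi j hj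
      have hp : 0 ≤ 15 * (ρ * (V0 * N)) * (V i * V j) :=
        mul_nonneg (mul_nonneg (by norm_num) (mul_nonneg hρ0.le hVN))
          (mul_nonneg (hVn i hi) (hVn j hj))
      by_cases h : i = j
      · subst h
        rw [if_pos rfl]
        linarith [hdiag i hi]
      · rw [if_neg h, zero_add]
        exact hoff i hi j hj h)
  rw [sumQ] at hdu
  have hΛ0 : 0 ≤ ∑ i ∈ 𝒜, V i := sum_nonneg hVn
  refine fin_arith hFs hVN hΛ0 hρ0.le hρA (le_trans hdu (le_of_eq ?_))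
  ring

end Pool.Agent.W654.PP
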